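import Pool.Agent.X291.EC.Split

/-! Coefficients, degree sums and a small edge cover. -/

namespace Pool.Agent.X291.EC

open Finset Classical

variable {V : Type*} [Fintype V]

theorem inc_subset (G : SimpleGraph V) (v : V) : inc G v ⊆ E G := filter_subset _ _

theorem covers_mem {G : SimpleGraph V} {S : Finset (Sym2 V)} :
    S ∈ covers G ↔ S ⊆ E G ∧ Cov S := by
  simp [covers, mem_powerset]

theorem card_ends {G : SimpleGraph V} {e : Sym2 V} (he : e ∈ E G) :
    (univ.filter fun v => v ∈ e).card = 2 := by
  induction e using Sym2.ind with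
  | _ x y =>
    rw [mem_E] at he
    have hne : x ≠ y := he.ne
    have : (univ.filter fun v => v ∈ s(x, y)) = {x, y} := by
      ext v; simp [Sym2.mem_iff]
    rw [this, card_pair hne]

theorem sum_dg_filter (G : SimpleGraph V) (P : V → Prop) [DecidablePred P] :
    ∑ v ∈ univ.filter P, dg G v = ∑ e ∈ E G, (univ.filter fun v => v ∈ e ∧ P v).card := by
  have h1 : ∀ v, dg G v = ∑ e ∈ E G, if v ∈ e then 1 else 0 := by
    intro v
    rw [dg, inc, card_filter]
  simp only [h1]
  rw [sum_comm]
  apply sum_congr rfl
  intro e _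
  rw [← sum_filter, filter_filter, sum_const, smul_eq_mul, mul_one]
  congr 1
  ext v
  simp [and_comm]

theorem sum_dg (G : SimpleGraph V) : ∑ v, dg G v = 2 * (E G).card := by
  have h := sum_dg_filter G (fun _ => True)
  simp only [filter_true, and_true] at h
  rw [h, sum_congr rfl (fun e he => card_ends he), sum_const, smul_eq_mul, mul_comm]

/-- double counting of light ends -/
theorem light_ends (G : SimpleGraph V) (hdeg : ∀ v, 2 ≤ dg G v) :
    (2 * nd G 2 : ℤ) - (E G).card = (m22 G : ℤ) - mhh G := by
  have h1 := sum_dg_filter G (fun v => dg G v = 2)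
  have h2 : ∑ v ∈ univ.filter (fun v => dg G v = 2), dg G v = 2 * nd G 2 := by
    rw [sum_congr rfl (fun v hv => (mem_filter.1 hv).2), sum_const, smul_eq_mul, mul_comm]; rfl
  rw [h2] at h1
  have h3 : ∀ e ∈ E G, (((univ.filter fun v => v ∈ e ∧ dg G v = 2).card : ℤ)) - 1 =
      (if (∀ v ∈ e, dg G v = 2) then 1 else 0) - (if (∀ v ∈ e, 3 ≤ dg G v) then 1 else 0) := by
    intro e he
    induction e using Sym2.ind with
    | _ x y =>
      rw [mem_E] at he
      have hne : x ≠ y := he.ne
      have hx := hdeg x
      have hy := hdeg y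
      have e1 : (univ.filter fun v => v ∈ s(x, y) ∧ dg G v = 2) =
          ({x, y} : Finset V).filter (fun v => dg G v = 2) := by
        ext v; simp [Sym2.mem_iff]
      rw [e1, filter_insert, filter_singleton]
      by_cases h1 : dg G x = 2 <;> by_cases h2 : dg G y = 2
      · simp [h1, h2, Sym2.mem_iff, hne]
      · have : 3 ≤ dg G y := by omega
        simp [h1, h2, Sym2.mem_iff]
      · have : 3 ≤ dg G x := by omega
        simp [h1, h2, Sym2.mem_iff]
      · have h3 : 3 ≤ dg G x := by omega
        have h4 : 3 ≤ dg G y := by omega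
        simp [h1, h2, h3, h4, Sym2.mem_iff]
  have h4 := sum_congr rfl h3
  rw [sum_sub_distrib, sum_sub_distrib] at h4
  rw [← Nat.cast_sum, ← h1] at h4
  simp only [sum_const, sum_boole, nsmul_eq_mul, mul_one] at h4
  unfold m22 mhh
  push_cast at h4 ⊢
  linarith

theorem card_le_edges (G : SimpleGraph V) (hdeg : ∀ v, 2 ≤ dg G v) :
    Fintype.card V ≤ (E G).card := by
  have h1 := sum_dg G
  have h2 : ∑ _v : V, 2 ≤ ∑ v, dg G v := sum_le_sum fun v _ => hdeg v
  rw [sum_const, smul_eq_mul, card_univ] at h2
  omega

theorem nd_le (G : SimpleGraph V) (d : ℕ) : nd G d ≤ Fintype.card V := by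
  unfold nd
  exact (card_filter_le _ _).trans (card_univ).le

theorem closed_univ {G : SimpleGraph V} (hconn : G.Connected) {D : Finset V} {x : V} (hx : x ∈ D)
    (hD : ∀ x ∈ D, ∀ y, G.Adj x y → y ∈ D) (v : V) : v ∈ D := by
  obtain ⟨w⟩ := hconn.preconnected x v
  induction w with
  | nil => exact hx
  | cons h _ ih => exact ih (hD _ hx _ h)

/-- The deleted sets. -/
noncomputable def cj (G : SimpleGraph V) (j : ℕ) : ℕ :=
  ((powersetCard j (E G)).filter fun T => Cov (E G \ T)).card

theorem card_covers_eq (G : SimpleGraph V) (j : ℕ) (hj : j ≤ (E G).card) :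
    ((covers G).filter fun S => S.card = (E G).card - j).card = cj G j := by
  unfold cj
  refine Finset.card_nbij' (fun S => E G \ S) (fun T => E G \ T) ?_ ?_ ?_ ?_
  · intro S hS
    rw [mem_coe, mem_filter, covers_mem] at hS
    rw [mem_coe, mem_filter, mem_powersetCard, Finset.sdiff_sdiff_eq_self hS.1.1]
    refine ⟨⟨sdiff_subset, ?_⟩, hS.1.2⟩
    rw [card_sdiff_of_subset hS.1.1, hS.2]; omega
  · intro T hT
    rw [mem_coe, mem_filter, mem_powersetCard] at hT
    rw [mem_coe, mem_filter, covers_mem]
    refine ⟨⟨sdiff_subset, hT.2⟩, ?_⟩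
    rw [card_sdiff_of_subset hT.1.1, hT.1.2]
  · intro S hS
    rw [mem_coe, mem_filter, covers_mem] at hS
    exact Finset.sdiff_sdiff_eq_self hS.1.1
  · intro T hT
    rw [mem_coe, mem_filter, mem_powersetCard] at hT
    exact Finset.sdiff_sdiff_eq_self hT.1.1

theorem not_cov_iff {G : SimpleGraph V} {T : Finset (Sym2 V)} :
    ¬ Cov (E G \ T) ↔ ∃ v, inc G v ⊆ T := by
  unfold Cov
  push Not
  constructor
  · rintro ⟨v, hv⟩
    refine ⟨v, fun e he => ?_⟩
    by_contra h
    rw [inc, mem_filter] at he
    exact hv e (mem_sdiff.2 ⟨he.1, h⟩) he.2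
  · rintro ⟨v, hv⟩
    refine ⟨v, fun e he hve => ?_⟩
    rw [mem_sdiff] at he
    exact he.2 (hv (by rw [inc, mem_filter]; exact ⟨he.1, hve⟩))

theorem cj_one (G : SimpleGraph V) (hdeg : ∀ v, 2 ≤ dg G v) : cj G 1 = (E G).card := by
  unfold cj
  rw [filter_true_of_mem, card_powersetCard, Nat.choose_one_right]
  intro T hT
  by_contra h
  rw [not_cov_iff] at h
  obtain ⟨v, hv⟩ := h
  have h1 := card_le_card hv
  rw [mem_powersetCard] at hT
  have h2 := hdeg v
  unfold dg at h2
  omega

theorem inc_inj {G : SimpleGraph V} {v w : V} (hv : 2 ≤ dg G v) (h : inc G v = inc G w) : v = w := by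
  by_contra hne
  have hsub : inc G v ⊆ {s(v, w)} := by
    intro e he
    rw [mem_singleton]
    have he' := he
    rw [h] at he'
    rw [mem_inc] at he he'
    exact ((Sym2.mem_and_mem_iff hne).1 ⟨he.2, he'.2⟩)
  have h1 := card_le_card hsub
  rw [card_singleton] at h1
  unfold dg at hv
  omega

theorem cj_two (G : SimpleGraph V) (hdeg : ∀ v, 2 ≤ dg G v) :
    cj G 2 + nd G 2 = (E G).card.choose 2 := by
  have h1 := card_filter_add_card_filter_not (s := powersetCard 2 (E G))
    (fun T => Cov (E G \ T))
  rw [card_powersetCard] at h1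
  rw [← h1]
  unfold cj nd
  congr 1
  refine card_nbij (fun v => inc G v) ?_ ?_ ?_
  · intro v hv
    rw [mem_coe, mem_filter] at hv
    rw [mem_coe, mem_filter, mem_powersetCard, not_cov_iff]
    exact ⟨⟨inc_subset G v, hv.2⟩, v, Subset.refl _⟩
  · intro v hv w _ hvw
    exact inc_inj (hdeg v) hvw
  · intro T hT
    rw [mem_coe, mem_filter, mem_powersetCard, not_cov_iff] at hT
    obtain ⟨⟨_, hc⟩, v, hv⟩ := hT
    have h2 := hdeg v
    have h3 : inc G v = T := eq_of_subset_of_card_le hv (by unfold dg at h2; omega)
    refine ⟨v, ?_, h3⟩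
    rw [mem_coe, mem_filter]
    exact ⟨mem_univ _, by unfold dg; rw [h3, hc]⟩

theorem cover_small {G : SimpleGraph V} (hconn : G.Connected) (hdeg : ∀ v, 2 ≤ dg G v) :
    ∃ S ∈ covers G, 2 * S.card ≤ (E G).card + 1 := by
  obtain ⟨c, hc⟩ : ∃ c, Mini G c := by
    obtain ⟨c, hc⟩ := Finite.exists_min (fun c : Sym2 V → Bool => (bads G c).card)
    exact ⟨c, hc⟩
  by_cases hb : ∃ v, bad G c v
  · obtain ⟨v0, b, hv⟩ := hb
    obtain ⟨_, k, p, hk, hk2, hp0, hinj, hadj, hlast, hall⟩ := closed_of_bad hdeg hc hv
    set D := (range (k + 1)).image p with hD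
    have hcardD : D.card = k + 1 := by
      rw [hD, Finset.card_image_of_injOn, card_range]
      intro i hi j hj hij
      rw [Finset.mem_coe, mem_range] at hi hj
      exact hinj i (by omega) j (by omega) hij
    have hdeg2 : ∀ i ≤ k, dg G (p i) = 2 := by
      intro i hi
      obtain ⟨c', b', h1, h2⟩ := hall i hi
      exact (closed_of_bad hdeg h1 h2).1
    have hmem : ∀ j, j ≤ k → p j ∈ D := fun j hj =>
      mem_image_of_mem _ (mem_range.2 (by omega))
    have hclosed : ∀ x ∈ D, ∀ y, G.Adj x y → y ∈ D := by
      intro x hx y hxy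
      rw [hD, mem_image] at hx
      obtain ⟨i, hi, rfl⟩ := hx
      rw [mem_range] at hi
      have h2 := hdeg2 i (by omega)
      rcases Nat.eq_zero_or_pos i with rfl | hi0
      · have hne : p 1 ≠ p k := fun h => by
          have := hinj 1 (by omega) k le_rfl h
          omega
        rcases nbr_of_two h2 (hadj 0 (by omega)) hlast.symm hne hxy with rfl | rfl
        · exact hmem 1 (by omega)
        · exact hmem k le_rfl
      · obtain ⟨j, rfl⟩ : ∃ j, i = j + 1 := ⟨i - 1, by omega⟩
        have hprev := (hadj j (by omega)).symm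
        rcases Nat.lt_or_ge (j + 1) k with hjk | hjk
        · have hne : p j ≠ p (j + 1 + 1) := fun h => by
            have := hinj j (by omega) (j + 1 + 1) (by omega) h
            omega
          rcases nbr_of_two h2 hprev (hadj (j + 1) hjk) hne hxy with rfl | rfl
          · exact hmem j (by omega)
          · exact hmem (j + 1 + 1) (by omega)
        · have hjk' : j + 1 = k := by omega
          subst hjk'
          have hne : p j ≠ p 0 := fun h => by
            have := hinj j (by omega) 0 (by omega) h
            omega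
          rcases nbr_of_two h2 hprev hlast hne hxy with rfl | rfl
          · exact hmem j (by omega)
          · exact hmem 0 (by omega)
    have huniv : ∀ v, v ∈ D := closed_univ hconn (hmem 0 (by omega)) hclosed
    have hDu : D = univ := eq_univ_iff_forall.2 huniv
    have hn : Fintype.card V = k + 1 := by rw [← card_univ, ← hDu, hcardD]
    have hm : (E G).card = k + 1 := by
      have h1 := sum_dg G
      have h2 : ∑ v, dg G v = ∑ _v : V, 2 := by
        apply sum_congr rfl
        intro v _
        have := huniv v
        rw [hD, mem_image] at this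
        obtain ⟨i, hi, rfl⟩ := this
        rw [mem_range] at hi
        exact hdeg2 i (by omega)
      rw [h2, sum_const, smul_eq_mul, card_univ, hn] at h1
      omega
    refine ⟨insert s(p k, p 0) ((range (k / 2)).image fun i => s(p (2 * i), p (2 * i + 1))), ?_, ?_⟩
    · rw [covers_mem]
      constructor
      · intro e he
        rw [mem_insert, mem_image] at he
        rcases he with rfl | ⟨i, hi, rfl⟩
        · rw [mem_E]; exact hlast
        · rw [mem_range] at hi
          rw [mem_E]; exact hadj (2 * i) (by omega)
      · intro v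
        have := huniv v
        rw [hD, mem_image] at this
        obtain ⟨i, hi, rfl⟩ := this
        rw [mem_range] at hi
        by_cases hik : i = k
        · exact ⟨_, mem_insert_self _ _, by rw [hik]; exact Sym2.mem_mk_left _ _⟩
        · refine ⟨s(p (2 * (i / 2)), p (2 * (i / 2) + 1)), ?_, ?_⟩
          · rw [mem_insert, mem_image]
            right
            exact ⟨i / 2, mem_range.2 (by omega), rfl⟩
          · rw [Sym2.mem_iff]
            rcases Nat.mod_two_eq_zero_or_one i with h | h
            · left; congr 1; omega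
            · right; congr 1; omega
    · have h1 := card_insert_le s(p k, p 0)
        ((range (k / 2)).image fun i => s(p (2 * i), p (2 * i + 1)))
      have h2 : ((range (k / 2)).image fun i => s(p (2 * i), p (2 * i + 1))).card ≤ k / 2 :=
        card_image_le.trans (card_range _).le
      omega
  · push Not at hb
    have hgood : ∀ b : Bool, (E G).filter (fun e => c e = b) ∈ covers G := by
      intro b
      rw [covers_mem]
      refine ⟨filter_subset _ _, fun v => ?_⟩
      by_contra hcon
      push Not at hcon
      apply hb v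
      refine ⟨!b, fun e he => ?_⟩
      rw [mem_inc] at he
      by_contra h1
      have h2 : c e = b := by
        cases h : c e <;> cases b <;> simp_all
      exact hcon e (by rw [mem_filter, mem_E]; exact ⟨he.1, h2⟩) he.2
    have hsum : ((E G).filter (fun e => c e = true)).card +
        ((E G).filter (fun e => c e = false)).card = (E G).card := by
      have h1 := card_filter_add_card_filter_not (s := E G) (fun e => c e = true)
      rw [← h1]
      congr 2
      ext e
      simp
    rcases le_total ((E G).filter (fun e => c e = true)).card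
      ((E G).filter (fun e => c e = false)).card with h | h
    · exact ⟨_, hgood true, by omega⟩
    · exact ⟨_, hgood false, by omega⟩

end Pool.Agent.X291.EC
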