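import Pool.Agent.X291.EC.Cnt

/-! The count in the final structure. -/

namespace Pool.Agent.X291.EC

open Finset Classical

variable {V : Type*} [Fintype V]

/-- The data of a gadget at `u`. -/
structure Gad (G : SimpleGraph V) (u a b t : V) : Prop where
  ua : G.Adj u a
  ub : G.Adj u b
  ab : G.Adj a b
  ut : G.Adj u t
  du : dg G u = 3
  da : dg G a = 2
  db : dg G b = 2
  ta : t ≠ a
  tb : t ≠ b

theorem Gad.inc_u {G : SimpleGraph V} {u a b t : V} (h : Gad G u a b t) {e : Sym2 V}
    (he : e ∈ inc G u) : e = s(u, a) ∨ e = s(u, b) ∨ e = s(u, t) := by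
  have hsub : ({s(u, a), s(u, b), s(u, t)} : Finset (Sym2 V)) ⊆ inc G u := by
    intro e he
    simp only [mem_insert, mem_singleton] at he
    rcases he with rfl | rfl | rfl
    · exact mk_mem_inc h.ua
    · exact mk_mem_inc h.ub
    · exact mk_mem_inc h.ut
  have n1 : s(u, a) ≠ s(u, b) := sym2_ne (Or.inr h.ab.ne) (Or.inl h.ub.ne)
  have n2 : s(u, a) ≠ s(u, t) := sym2_ne (Or.inr h.ta.symm) (Or.inl h.ut.ne)
  have n3 : s(u, b) ≠ s(u, t) := sym2_ne (Or.inr h.tb.symm) (Or.inl h.ut.ne)
  have hcard : ({s(u, a), s(u, b), s(u, t)} : Finset (Sym2 V)).card = 3 := by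
    rw [card_insert_of_notMem (by simp [n1, n2]), card_pair n3]
  have heq := eq_of_subset_of_card_le hsub (by rw [hcard]; exact h.du.le)
  rw [← heq] at he
  simpa [mem_insert, mem_singleton] using he

theorem Gad.inc_a {G : SimpleGraph V} {u a b t : V} (h : Gad G u a b t) {e : Sym2 V}
    (he : e ∈ inc G a) : e = s(u, a) ∨ e = s(a, b) := by
  obtain ⟨y, hy, rfl⟩ := exists_of_mem_inc he
  rcases nbr_of_two h.da h.ua.symm h.ab h.ub.ne hy with rfl | rfl
  · left; exact Sym2.eq_swap
  · right; rfl

theorem Gad.inc_b {G : SimpleGraph V} {u a b t : V} (h : Gad G u a b t) {e : Sym2 V}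
    (he : e ∈ inc G b) : e = s(u, b) ∨ e = s(a, b) := by
  obtain ⟨y, hy, rfl⟩ := exists_of_mem_inc he
  rcases nbr_of_two h.db h.ub.symm h.ab.symm h.ua.ne hy with rfl | rfl
  · left; exact Sym2.eq_swap
  · right; exact Sym2.eq_swap

/-- the edges of a gadget -/
noncomputable def gE (u a b t : V) : Finset (Sym2 V) := {s(u, a), s(u, b), s(a, b), s(u, t)}

/-- the valid subsets of a gadget -/
noncomputable def gA (u a b t : V) : Finset (Finset (Sym2 V)) :=
  (gE u a b t).powerset.filter fun T =>
    (∃ e ∈ T, u ∈ e) ∧ (∃ e ∈ T, a ∈ e) ∧ ∃ e ∈ T, b ∈ e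

theorem card_gA {G : SimpleGraph V} {u a b t : V} (h : Gad G u a b t) :
    (gA u a b t).card ≤ 9 := by
  have hc : ((univ : Finset (Bool × Bool × Bool × Bool)).filter fun x =>
      (x.1 = true ∨ x.2.1 = true ∨ x.2.2.2 = true) ∧ (x.1 = true ∨ x.2.2.1 = true) ∧
        (x.2.1 = true ∨ x.2.2.1 = true)).card = 9 := by decide
  rw [← hc]
  apply card_le_card_of_injOn (fun T => (decide (s(u, a) ∈ T), decide (s(u, b) ∈ T),
    decide (s(a, b) ∈ T), decide (s(u, t) ∈ T)))
  · intro T hT
    rw [mem_coe, gA, mem_filter, mem_powerset] at hT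
    obtain ⟨hsub, ⟨e1, he1, hu⟩, ⟨e2, he2, ha⟩, e3, he3, hb⟩ := hT
    have hmem : ∀ e ∈ T, e = s(u, a) ∨ e = s(u, b) ∨ e = s(a, b) ∨ e = s(u, t) := by
      intro e he
      have := hsub he
      simpa [gE] using this
    rw [mem_coe, mem_filter]
    refine ⟨mem_univ _, ?_, ?_, ?_⟩
    · rcases hmem e1 he1 with rfl | rfl | rfl | rfl
      · simp [he1]
      · simp [he1]
      · rcases Sym2.mem_iff.1 hu with h1 | h1
        · exact absurd h1 h.ua.ne
        · exact absurd h1 h.ub.ne
      · simp [he1]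
    · rcases hmem e2 he2 with rfl | rfl | rfl | rfl
      · simp [he2]
      · rcases Sym2.mem_iff.1 ha with h1 | h1
        · exact absurd h1 h.ua.ne'
        · exact absurd h1 h.ab.ne
      · simp [he2]
      · rcases Sym2.mem_iff.1 ha with h1 | h1
        · exact absurd h1 h.ua.ne'
        · exact absurd h1.symm h.ta
    · rcases hmem e3 he3 with rfl | rfl | rfl | rfl
      · rcases Sym2.mem_iff.1 hb with h1 | h1
        · exact absurd h1 h.ub.ne'
        · exact absurd h1 h.ab.ne'
      · simp [he3]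
      · simp [he3]
      · rcases Sym2.mem_iff.1 hb with h1 | h1
        · exact absurd h1 h.ub.ne'
        · exact absurd h1.symm h.tb
  · intro T hT T' hT' heq
    rw [mem_coe, gA, mem_filter, mem_powerset] at hT hT'
    simp only [Prod.mk.injEq, decide_eq_decide] at heq
    obtain ⟨q1, q2, q3, q4⟩ := heq
    ext e
    constructor
    · intro he
      have := hT.1 he
      simp only [gE, mem_insert, mem_singleton] at this
      rcases this with rfl | rfl | rfl | rfl
      · exact q1.1 he
      · exact q2.1 he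
      · exact q3.1 he
      · exact q4.1 he
    · intro he
      have := hT'.1 he
      simp only [gE, mem_insert, mem_singleton] at this
      rcases this with rfl | rfl | rfl | rfl
      · exact q1.2 he
      · exact q2.2 he
      · exact q3.2 he
      · exact q4.2 he

theorem count_lt {G : SimpleGraph V} (hdeg : ∀ v, 2 ≤ dg G v) (U : Finset V) (a b t : V → V)
    (h1 : ∀ u ∈ U, G.Adj u (a u) ∧ G.Adj u (b u) ∧ G.Adj (a u) (b u) ∧ G.Adj u (t u) ∧
      dg G u = 3 ∧ dg G (a u) = 2 ∧ dg G (b u) = 2 ∧ t u ≠ a u ∧ t u ≠ b u ∧ 3 ≤ dg G (t u))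
    (h2 : ∀ e ∈ E G, (∃ u ∈ U, e = s(u, a u) ∨ e = s(u, b u) ∨ e = s(a u, b u) ∨ e = s(u, t u)) ∨
      ∃ w ∈ e, dg G w = 2 ∧ ∀ u ∈ U, w ≠ a u ∧ w ≠ b u)
    (h3 : ∃ w, 3 ≤ dg G w ∧ w ∉ U) : (covers G).card < 3 ^ nd G 2 := by
  have hg : ∀ u ∈ U, Gad G u (a u) (b u) (t u) := by
    intro u hu
    obtain ⟨g1, g2, g3, g4, g5, g6, g7, g8, g9, _⟩ := h1 u hu
    exact ⟨g1, g2, g3, g4, g5, g6, g7, g8, g9⟩
  -- the relaxed sets
  set X := (E G).powerset.filter (fun F : Finset (Sym2 V) =>
    (∀ v, dg G v = 2 → ∃ e ∈ F, v ∈ e) ∧ ∀ u ∈ U, ∃ e ∈ F, u ∈ e) with hX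
  have hlt : (covers G).card < X.card := by
    apply card_lt_card
    rw [ssubset_iff_of_subset]
    · obtain ⟨w0, hw0, hw0U⟩ := h3
      have hkey : ∀ v, v ≠ w0 → ∃ e ∈ E G \ inc G w0, v ∈ e := by
        intro v hv
        by_contra hcon
        push Not at hcon
        have hsub : inc G v ⊆ {s(v, w0)} := by
          intro e he
          rw [mem_singleton]
          by_contra hne
          have he' := he
          rw [mem_inc] at he'
          apply hcon e _ he'.2
          rw [mem_sdiff, mem_E, mem_inc]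
          refine ⟨he'.1, fun h4 => hne ((Sym2.mem_and_mem_iff hv).1 ⟨he'.2, h4.2⟩)⟩
        have h5 := card_le_card hsub
        rw [card_singleton] at h5
        have h6 := hdeg v
        unfold dg at h6
        omega
      refine ⟨E G \ inc G w0, ?_, ?_⟩
      · rw [hX, mem_filter, mem_powerset]
        refine ⟨sdiff_subset, fun v hv => hkey v ?_, fun u hu => hkey u ?_⟩
        · rintro rfl; omega
        · rintro rfl; exact hw0U hu
      · intro hcov
        obtain ⟨e, he, hwe⟩ := (covers_mem.1 hcov).2 w0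
        rw [mem_sdiff, mem_E, mem_inc] at he
        exact he.2 ⟨he.1, hwe⟩
    · intro F hF
      rw [covers_mem] at hF
      rw [hX, mem_filter, mem_powerset]
      exact ⟨hF.1, fun v _ => hF.2 v, fun u _ => hF.2 u⟩
  refine lt_of_lt_of_le hlt ?_
  -- light vertices outside the gadgets
  set L : Finset V := univ.filter (fun w => dg G w = 2 ∧ ∀ u ∈ U, w ≠ a u ∧ w ≠ b u) with hL
  set B : V → Finset (Sym2 V) := fun w =>
    if w ∈ U then gE w (a w) (b w) (t w) else if w ∈ L then inc G w else ∅ with hB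
  set A : V → Finset (Finset (Sym2 V)) := fun w =>
    if w ∈ U then gA w (a w) (b w) (t w) else if w ∈ L then (inc G w).powerset.erase ∅ else {∅}
    with hA
  have hcard1 : X.card ≤ (Fintype.piFinset A).card := by
    apply card_le_card_of_injOn (fun F w => F ∩ B w)
    · intro F hF
      rw [mem_coe, hX, mem_filter, mem_powerset] at hF
      obtain ⟨hFE, hF2, hFU⟩ := hF
      rw [mem_coe, Fintype.mem_piFinset]
      intro w
      simp only [hA, hB]
      by_cases hwU : w ∈ U
      · rw [if_pos hwU, if_pos hwU, gA, mem_filter, mem_powerset]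
        have g := hg w hwU
        refine ⟨inter_subset_right, ?_, ?_, ?_⟩
        · obtain ⟨e, he, hwe⟩ := hFU w hwU
          refine ⟨e, ?_, hwe⟩
          rw [mem_inter]
          refine ⟨he, ?_⟩
          have := g.inc_u (mem_inc.2 ⟨mem_E.1 (hFE he), hwe⟩)
          simp only [gE, mem_insert, mem_singleton]
          tauto
        · obtain ⟨e, he, hwe⟩ := hF2 (a w) g.da
          refine ⟨e, ?_, hwe⟩
          rw [mem_inter]
          refine ⟨he, ?_⟩
          have := g.inc_a (mem_inc.2 ⟨mem_E.1 (hFE he), hwe⟩)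
          simp only [gE, mem_insert, mem_singleton]
          tauto
        · obtain ⟨e, he, hwe⟩ := hF2 (b w) g.db
          refine ⟨e, ?_, hwe⟩
          rw [mem_inter]
          refine ⟨he, ?_⟩
          have := g.inc_b (mem_inc.2 ⟨mem_E.1 (hFE he), hwe⟩)
          simp only [gE, mem_insert, mem_singleton]
          tauto
      · rw [if_neg hwU, if_neg hwU]
        by_cases hwL : w ∈ L
        · rw [if_pos hwL, if_pos hwL, mem_erase, mem_powerset]
          refine ⟨?_, inter_subset_right⟩
          rw [hL, mem_filter] at hwL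
          obtain ⟨e, he, hwe⟩ := hF2 w hwL.2.1
          intro h0
          have : e ∈ F ∩ inc G w := mem_inter.2 ⟨he, mem_inc.2 ⟨mem_E.1 (hFE he), hwe⟩⟩
          rw [h0] at this
          simp at this
        · rw [if_neg hwL, if_neg hwL]
          simp
    · intro F hF F' hF' heq
      rw [mem_coe, hX, mem_filter, mem_powerset] at hF hF'
      have hcov : ∀ e ∈ E G, ∃ w, e ∈ B w := by
        intro e he
        rcases h2 e he with ⟨u, hu, h4⟩ | ⟨w, hwe, hw2, hwU⟩
        · refine ⟨u, ?_⟩
          simp only [hB, if_pos hu, gE, mem_insert, mem_singleton]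
          exact h4
        · refine ⟨w, ?_⟩
          have hwnU : w ∉ U := by
            intro h5
            have := (hg w h5).du
            omega
          have hwL : w ∈ L := by rw [hL, mem_filter]; exact ⟨mem_univ _, hw2, hwU⟩
          simp only [hB, if_neg hwnU, if_pos hwL]
          exact mem_inc.2 ⟨mem_E.1 he, hwe⟩
      ext e
      constructor
      · intro he
        obtain ⟨w, hw⟩ := hcov e (hF.1 he)
        have h4 : e ∈ F ∩ B w := mem_inter.2 ⟨he, hw⟩
        have h5 : F ∩ B w = F' ∩ B w := congrFun heq w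
        rw [h5] at h4
        exact (mem_inter.1 h4).1
      · intro he
        obtain ⟨w, hw⟩ := hcov e (hF'.1 he)
        have h4 : e ∈ F' ∩ B w := mem_inter.2 ⟨he, hw⟩
        have h5 : F ∩ B w = F' ∩ B w := congrFun heq w
        rw [← h5] at h4
        exact (mem_inter.1 h4).1
  refine hcard1.trans ?_
  rw [Fintype.card_piFinset]
  have hAle : ∀ w, (A w).card ≤ (if w ∈ U then 9 else 1) * (if w ∈ L then 3 else 1) := by
    intro w
    simp only [hA]
    by_cases hwU : w ∈ U
    · rw [if_pos hwU, if_pos hwU]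
      have h4 := card_gA (hg w hwU)
      split_ifs <;> omega
    · rw [if_neg hwU, if_neg hwU]
      by_cases hwL : w ∈ L
      · rw [if_pos hwL, if_pos hwL, card_erase_of_mem (empty_mem_powerset _), card_powerset]
        rw [hL, mem_filter] at hwL
        have : (inc G w).card = 2 := hwL.2.1
        rw [this]; norm_num
      · rw [if_neg hwL, if_neg hwL]; simp
  refine (prod_le_prod' fun w _ => hAle w).trans ?_
  rw [prod_mul_distrib, prod_ite_mem, prod_ite_mem, univ_inter, univ_inter, prod_const, prod_const]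
  -- counting the light vertices
  have ha : Set.InjOn a U := by
    intro u hu u' hu' heq
    have g := hg u hu
    have g' := hg u' hu'
    have h4 : G.Adj (a u) u' := by rw [heq]; exact g'.ua.symm
    rcases nbr_of_two g.da g.ua.symm g.ab g.ub.ne h4 with h5 | h5
    · exact h5.symm
    · have h6 := g'.du
      rw [h5, g.db] at h6
      omega
  have hb : Set.InjOn b U := by
    intro u hu u' hu' heq
    have g := hg u hu
    have g' := hg u' hu'
    have h4 : G.Adj (b u) u' := by rw [heq]; exact g'.ub.symm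
    rcases nbr_of_two g.db g.ub.symm g.ab.symm g.ua.ne h4 with h5 | h5
    · exact h5.symm
    · have h6 := g'.du
      rw [h5, g.da] at h6
      omega
  have hdis : Disjoint (U.image a) (U.image b) := by
    rw [disjoint_left]
    intro x hx hx'
    rw [mem_image] at hx hx'
    obtain ⟨u, hu, rfl⟩ := hx
    obtain ⟨u', hu', h4⟩ := hx'
    have g := hg u hu
    have g' := hg u' hu'
    have h5 : G.Adj (a u) u' := by rw [← h4]; exact g'.ub.symm
    rcases nbr_of_two g.da g.ua.symm g.ab g.ub.ne h5 with h6 | h6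
    · rw [h6] at h4
      exact g.ab.ne h4.symm
    · have h7 := g'.du
      rw [h6, g.db] at h7
      omega
  have hdis2 : Disjoint L (U.image a ∪ U.image b) := by
    rw [disjoint_left]
    intro x hx hx'
    rw [hL, mem_filter] at hx
    rw [mem_union, mem_image, mem_image] at hx'
    rcases hx' with ⟨u, hu, h4⟩ | ⟨u, hu, h4⟩
    · exact (hx.2.2 u hu).1 h4.symm
    · exact (hx.2.2 u hu).2 h4.symm
  have hunion : univ.filter (fun w => dg G w = 2) = L ∪ (U.image a ∪ U.image b) := by
    ext x
    rw [mem_union, mem_union, mem_image, mem_image, hL, mem_filter, mem_filter]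
    constructor
    · rintro ⟨_, hx⟩
      by_cases h4 : ∀ u ∈ U, x ≠ a u ∧ x ≠ b u
      · exact Or.inl ⟨mem_univ _, hx, h4⟩
      · right
        push Not at h4
        obtain ⟨u, hu, h5⟩ := h4
        by_cases h6 : x = a u
        · exact Or.inl ⟨u, hu, h6.symm⟩
        · exact Or.inr ⟨u, hu, (h5 h6).symm⟩
    · rintro (⟨_, hx, _⟩ | ⟨u, hu, rfl⟩ | ⟨u, hu, rfl⟩)
      · exact ⟨mem_univ _, hx⟩
      · exact ⟨mem_univ _, (hg u hu).da⟩
      · exact ⟨mem_univ _, (hg u hu).db⟩
  have hnd : nd G 2 = L.card + (U.card + U.card) := by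
    unfold nd
    rw [hunion, card_union_of_disjoint hdis2, card_union_of_disjoint hdis,
      card_image_of_injOn ha, card_image_of_injOn hb]
  rw [hnd, pow_add, pow_add]
  have : (9 : ℕ) ^ U.card = 3 ^ U.card * 3 ^ U.card := by
    rw [← mul_pow]; norm_num
  rw [this]
  apply le_of_eq
  ring

end Pool.Agent.X291.EC
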