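import Mathlib

/-! Edge covering sets and the edge cover polynomial. -/

namespace Pool.Agent.X291.EC

open Finset Classical

variable {V : Type*} [Fintype V]

/-- The set `S` of pairs meets every vertex. -/
def Cov (S : Finset (Sym2 V)) : Prop := ∀ v : V, ∃ e ∈ S, v ∈ e

/-- The edges of `G`. -/
noncomputable def E (G : SimpleGraph V) : Finset (Sym2 V) := univ.filter (· ∈ G.edgeSet)

/-- The edges at `v`. -/
noncomputable def inc (G : SimpleGraph V) (v : V) : Finset (Sym2 V) := (E G).filter (v ∈ ·)

/-- The degree of `v`. -/
noncomputable def dg (G : SimpleGraph V) (v : V) : ℕ := (inc G v).card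

/-- The edge covering sets of `G`. -/
noncomputable def covers (G : SimpleGraph V) : Finset (Finset (Sym2 V)) :=
  (E G).powerset.filter Cov

/-- The edge cover polynomial `∑_S x^|S|`. -/
noncomputable def ecp (G : SimpleGraph V) : Polynomial ℂ :=
  ∑ S ∈ covers G, Polynomial.X ^ S.card

/-- number of vertices of degree `d` -/
noncomputable def nd (G : SimpleGraph V) (d : ℕ) : ℕ := (univ.filter fun v => dg G v = d).card

/-- number of edges joining two vertices of degree 2 -/
noncomputable def m22 (G : SimpleGraph V) : ℕ := ((E G).filter fun e => ∀ v ∈ e, dg G v = 2).card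

/-- number of edges joining two vertices of degree at least 3 -/
noncomputable def mhh (G : SimpleGraph V) : ℕ := ((E G).filter fun e => ∀ v ∈ e, 3 ≤ dg G v).card

end Pool.Agent.X291.EC
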