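import Pool.Agent.X291.EC.Cnt

/-! The polynomial part. -/

namespace Pool.Agent.X291.EC

open Finset Classical Polynomial

variable {V : Type*} [Fintype V]

theorem ecp_coeff (G : SimpleGraph V) (i : ℕ) :
    (ecp G).coeff i = (((covers G).filter fun S => S.card = i).card : ℂ) := by
  unfold ecp
  rw [finsetSum_coeff]
  simp only [coeff_X_pow]
  rw [card_filter]
  push_cast
  apply sum_congr rfl
  intro S _
  by_cases h : i = S.card
  · simp [h]
  · simp [h, Ne.symm h]

theorem E_mem_covers {G : SimpleGraph V} (hdeg : ∀ v, 2 ≤ dg G v) : E G ∈ covers G := by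
  rw [covers_mem]
  refine ⟨Subset.refl _, fun v => ?_⟩
  obtain ⟨e, he, _⟩ := exists_other hdeg v s(v, v)
  rw [mem_inc] at he
  exact ⟨e, by rw [mem_E]; exact he.1, he.2⟩

theorem ecp_coeff_top {G : SimpleGraph V} (hdeg : ∀ v, 2 ≤ dg G v) :
    (ecp G).coeff (E G).card = 1 := by
  rw [ecp_coeff]
  have : (covers G).filter (fun S => S.card = (E G).card) = {E G} := by
    ext S
    rw [mem_filter, mem_singleton]
    constructor
    · rintro ⟨h1, h2⟩
      exact eq_of_subset_of_card_le (covers_mem.1 h1).1 h2.ge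
    · rintro rfl
      exact ⟨E_mem_covers hdeg, rfl⟩
  rw [this]
  simp

theorem ecp_natDegree_le (G : SimpleGraph V) : (ecp G).natDegree ≤ (E G).card := by
  unfold ecp
  apply natDegree_sum_le_of_forall_le
  intro S hS
  rw [natDegree_X_pow]
  exact card_le_card (covers_mem.1 hS).1

theorem ecp_natDegree {G : SimpleGraph V} (hdeg : ∀ v, 2 ≤ dg G v) :
    (ecp G).natDegree = (E G).card := by
  apply le_antisymm (ecp_natDegree_le G)
  apply le_natDegree_of_ne_zero
  rw [ecp_coeff_top hdeg]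
  exact one_ne_zero

theorem ecp_monic {G : SimpleGraph V} (hdeg : ∀ v, 2 ≤ dg G v) : (ecp G).Monic := by
  unfold Monic leadingCoeff
  rw [ecp_natDegree hdeg, ecp_coeff_top hdeg]

theorem ecp_root_zero [Nonempty V] (G : SimpleGraph V) : (ecp G).eval 0 = 0 := by
  rw [← coeff_zero_eq_eval_zero, ecp_coeff]
  rw [Nat.cast_eq_zero, card_eq_zero, filter_eq_empty_iff]
  intro S hS h0
  rw [card_eq_zero] at h0
  subst h0
  obtain ⟨e, he, _⟩ := (covers_mem.1 hS).2 (Classical.arbitrary V)
  simp at he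

/-- at most two distinct roots: a product of two powers -/
theorem two_roots {p : ℂ[X]} (hp : p.Monic) (h0 : p.eval 0 = 0)
    (hr : p.roots.toFinset.card ≤ 2) : ∃ (a b : ℕ) (c : ℂ), a + b = p.natDegree ∧
      p = X ^ a * (X + C c) ^ b := by
  have hp0 : p ≠ 0 := hp.ne_zero
  have hmem : (0 : ℂ) ∈ p.roots.toFinset := by
    rw [Multiset.mem_toFinset, mem_roots hp0]; exact h0
  obtain ⟨r, hr2⟩ : ∃ r : ℂ, ∀ z ∈ p.roots, z = 0 ∨ z = r := by
    have h1 : (p.roots.toFinset.erase 0).card ≤ 1 := by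
      rw [card_erase_of_mem hmem]; omega
    rw [Finset.card_le_one] at h1
    by_cases hex : ∃ r, r ∈ p.roots.toFinset.erase 0
    · obtain ⟨r, hr⟩ := hex
      refine ⟨r, fun z hz => ?_⟩
      by_cases hz0 : z = 0
      · exact Or.inl hz0
      · right
        exact h1 z (mem_erase.2 ⟨hz0, Multiset.mem_toFinset.2 hz⟩) r hr
    · push Not at hex
      refine ⟨0, fun z hz => ?_⟩
      by_contra hcon
      push Not at hcon
      exact hex z (mem_erase.2 ⟨hcon.1, Multiset.mem_toFinset.2 hz⟩)
  have hsplit : (p.roots.map fun a => X - C a).prod = p := by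
    have h1 := (IsAlgClosed.splits p).eq_prod_roots
    rw [hp.leadingCoeff, C_1, one_mul] at h1
    exact h1.symm
  have hcard : p.roots.card = p.natDegree := (IsAlgClosed.splits p).natDegree_eq_card_roots.symm
  have hfil : p.roots = p.roots.filter (· = 0) + p.roots.filter (fun z => ¬ z = 0) :=
    (Multiset.filter_add_not _ _).symm
  have e1 : p.roots.filter (· = 0) = Multiset.replicate (p.roots.filter (· = 0)).card 0 := by
    rw [Multiset.eq_replicate]
    exact ⟨rfl, fun z hz => (Multiset.mem_filter.1 hz).2⟩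
  have e2 : p.roots.filter (fun z => ¬ z = 0) =
      Multiset.replicate (p.roots.filter (fun z => ¬ z = 0)).card r := by
    rw [Multiset.eq_replicate]
    refine ⟨rfl, fun z hz => ?_⟩
    rw [Multiset.mem_filter] at hz
    rcases hr2 z hz.1 with h | h
    · exact absurd h hz.2
    · exact h
  refine ⟨(p.roots.filter (· = 0)).card, (p.roots.filter (fun z => ¬ z = 0)).card, -r, ?_, ?_⟩
  · rw [← hcard, ← Multiset.card_add, ← hfil]
  · have h3 : p = ((p.roots.filter (· = 0) + p.roots.filter (fun z => ¬ z = 0)).map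
        fun a => X - C a).prod := by
      rw [← hfil, hsplit]
    rw [Multiset.map_add, Multiset.prod_add, e1, e2, Multiset.map_replicate,
      Multiset.map_replicate, Multiset.prod_replicate, Multiset.prod_replicate] at h3
    rw [C_0, sub_zero] at h3
    rw [C_neg, ← sub_eq_add_neg]
    exact h3

theorem coeff_form (a b : ℕ) (c : ℂ) (j : ℕ) (hj : j ≤ a + b) :
    (X ^ a * (X + C c) ^ b : ℂ[X]).coeff (a + b - j) = (b.choose j : ℂ) * c ^ j := by
  by_cases hjb : j ≤ b
  · rw [show a + b - j = (b - j) + a by omega, coeff_X_pow_mul, coeff_X_add_C_pow,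
      Nat.choose_symm hjb]
    rw [show b - (b - j) = j by omega]
    ring
  · rw [coeff_X_pow_mul', if_neg (by omega), Nat.choose_eq_zero_of_lt (by omega)]
    simp

/-- The numerical consequences of having at most two distinct roots. -/
theorem numeric {G : SimpleGraph V} (hconn : G.Connected) (hdeg : ∀ v, 2 ≤ dg G v)
    (h2 : ∃ v, dg G v = 2) (hV : Fintype.card V ≠ 3) (hr : (ecp G).roots.toFinset.card ≤ 2) :
    ∃ s, 1 ≤ s ∧ (E G).card = 2 * s ∧ nd G 2 = s ∧ m22 G = mhh G ∧
      (∀ S ∈ covers G, s ≤ S.card) ∧ (covers G).card = 3 ^ s := by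
  obtain ⟨v0, hv0⟩ := h2
  have : Nonempty V := ⟨v0⟩
  obtain ⟨a, b, c, hab, hp⟩ := two_roots (ecp_monic hdeg) (ecp_root_zero G) hr
  rw [ecp_natDegree hdeg] at hab
  set m := (E G).card with hm
  have hm2 : 2 ≤ m := by
    have h1 := hdeg v0
    have h3 := card_le_card (inc_subset G v0)
    unfold dg at h1
    omega
  have hN : ∀ j, j ≤ m → (cj G j : ℂ) = (b.choose j : ℂ) * c ^ j := by
    intro j hj
    rw [← card_covers_eq G j hj, ← ecp_coeff, hp, ← hm, ← hab]
    exact coeff_form a b c j (by omega)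
  have h1 := hN 1 (by omega)
  rw [cj_one G hdeg, ← hm, Nat.choose_one_right, pow_one] at h1
  have hb0 : b ≠ 0 := by
    rintro rfl
    simp at h1
    omega
  have hbC : (b : ℂ) ≠ 0 := by exact_mod_cast hb0
  -- `c` is a natural number
  have hNb := hN b (by omega)
  rw [Nat.choose_self, Nat.cast_one, one_mul] at hNb
  have hdvd : b ∣ m := by
    have h3 : ((m ^ b : ℕ) : ℂ) = ((b ^ b * cj G b : ℕ) : ℂ) := by
      push_cast
      rw [hNb, h1]
      ring
    have h4 : m ^ b = b ^ b * cj G b := by exact_mod_cast h3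
    exact (Nat.pow_dvd_pow_iff hb0).1 ⟨_, h4⟩
  obtain ⟨d, hd⟩ := hdvd
  have hcd : c = (d : ℂ) := by
    rw [hd] at h1
    push_cast at h1
    exact (mul_left_cancel₀ hbC h1).symm
  have h2' := hN 2 hm2
  have hc2 := cj_two G hdeg
  rw [← hm] at hc2
  -- 2 n2 = m (d - 1)
  have hn2 : (2 * nd G 2 : ℤ) = m * ((d : ℤ) - 1) := by
    have h5 : (cj G 2 : ℤ) = (b.choose 2 : ℤ) * (d : ℤ) ^ 2 := by
      rw [hcd] at h2'
      exact_mod_cast h2'
    have h6 : ∀ n : ℕ, (2 * (n.choose 2 : ℕ) : ℤ) = (n : ℤ) * ((n : ℤ) - 1) := by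
      intro n
      rw [Nat.choose_two_right]
      have h7 : 2 * (n * (n - 1) / 2) = n * (n - 1) := Nat.mul_div_cancel' (Nat.even_mul_pred_self n).two_dvd
      have h8 : ((2 * (n * (n - 1) / 2) : ℕ) : ℤ) = ((n * (n - 1) : ℕ) : ℤ) := by rw [h7]
      rcases Nat.eq_zero_or_pos n with rfl | hn
      · simp
      · push_cast [Nat.cast_sub hn] at h8 ⊢
        exact h8
    have h9 : (cj G 2 : ℤ) + nd G 2 = (m.choose 2 : ℕ) := by exact_mod_cast hc2
    have h10 := h6 m
    have h11 := h6 b
    have hmbd : (m : ℤ) = b * d := by exact_mod_cast hd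
    rw [← h9, h5] at h10
    have h12 : (2 * nd G 2 : ℤ) = m * (m - 1) - (2 * (b.choose 2 : ℕ)) * d ^ 2 := by
      linarith
    rw [h12, h11, hmbd]
    ring
  have hn2pos : 1 ≤ nd G 2 := by
    unfold nd
    exact card_pos.2 ⟨v0, by rw [mem_filter]; exact ⟨mem_univ _, hv0⟩⟩
  have hnm := card_le_edges G hdeg
  have hndn := nd_le G 2
  have hd1 : (2 : ℤ) ≤ d := by
    by_contra hcon
    have h3 : (d : ℤ) - 1 ≤ 0 := by omega
    have h4 : (m : ℤ) * ((d : ℤ) - 1) ≤ 0 := mul_nonpos_of_nonneg_of_nonpos (by positivity) h3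
    omega
  have hd3 : (d : ℤ) ≤ 3 := by
    by_contra hcon
    have h3 : (3 : ℤ) ≤ (d : ℤ) - 1 := by omega
    have h4 : (m : ℤ) * 3 ≤ (m : ℤ) * ((d : ℤ) - 1) := mul_le_mul_of_nonneg_left h3 (by positivity)
    rw [← hm] at hnm
    omega
  have hlow : ∀ S ∈ covers G, a ≤ S.card := by
    intro S hS
    by_contra hcon
    have h3 := ecp_coeff G S.card
    rw [hp, coeff_X_pow_mul', if_neg hcon] at h3
    have h4 : ((covers G).filter fun T => T.card = S.card).card = 0 := by exact_mod_cast h3.symm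
    rw [card_eq_zero, filter_eq_empty_iff] at h4
    exact h4 hS rfl
  have hd23 : d = 2 ∨ d = 3 := by omega
  rcases hd23 with rfl | rfl
  · have hn2' : 2 * nd G 2 = m := by push_cast at hn2; omega
    refine ⟨b, by omega, by omega, by omega, ?_, ?_, ?_⟩
    · have h3 := light_ends G hdeg
      rw [← hm] at h3
      have h4 : (2 * nd G 2 : ℤ) = m := by exact_mod_cast hn2'
      rw [h4, sub_self] at h3
      omega
    · intro S hS
      have := hlow S hS
      omega
    · have h3 : (ecp G).eval 1 = (3 : ℂ) ^ b := by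
        rw [hp, hcd]
        simp only [eval_mul, eval_pow, eval_X, eval_add, eval_C, one_pow, one_mul]
        norm_num
      have h4 : (ecp G).eval 1 = ((covers G).card : ℂ) := by
        unfold ecp
        rw [eval_finsetSum]
        simp
      rw [h4] at h3
      exact_mod_cast h3
  · exfalso
    obtain ⟨S, hS, hS2⟩ := cover_small hconn hdeg
    have h3 := hlow S hS
    rw [← hm] at hS2
    have h4 : nd G 2 = m := by push_cast at hn2; omega
    apply hV
    rw [← hm] at hnm
    omega

end Pool.Agent.X291.EC
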