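import Pool.Agent.X291.EC.Defs

/-! Splitting the edges into two edge covering sets. -/

namespace Pool.Agent.X291.EC

open Finset Classical

variable {V : Type*} [Fintype V]

theorem mem_E {G : SimpleGraph V} {e : Sym2 V} : e ∈ E G ↔ e ∈ G.edgeSet := by simp [E]

theorem mem_inc {G : SimpleGraph V} {v : V} {e : Sym2 V} :
    e ∈ inc G v ↔ e ∈ G.edgeSet ∧ v ∈ e := by simp [inc, mem_E]

theorem mk_mem_inc {G : SimpleGraph V} {v w : V} (h : G.Adj v w) : s(v, w) ∈ inc G v := by
  rw [mem_inc]; exact ⟨h, Sym2.mem_mk_left v w⟩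

theorem mk_mem_inc' {G : SimpleGraph V} {v w : V} (h : G.Adj v w) : s(v, w) ∈ inc G w := by
  rw [mem_inc]; exact ⟨h, Sym2.mem_mk_right v w⟩

theorem exists_of_mem_inc {G : SimpleGraph V} {v : V} {e : Sym2 V} (h : e ∈ inc G v) :
    ∃ w, G.Adj v w ∧ e = s(v, w) := by
  rw [mem_inc] at h
  obtain ⟨w, rfl⟩ := h.2
  exact ⟨w, h.1, rfl⟩

/-- `v` is bad for the colouring `c` -/
def bad (G : SimpleGraph V) (c : Sym2 V → Bool) (v : V) : Prop := ∃ b, ∀ e ∈ inc G v, c e = b

/-- the set of bad vertices -/
noncomputable def bads (G : SimpleGraph V) (c : Sym2 V → Bool) : Finset V := univ.filter (bad G c)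

/-- minimal colourings -/
def Mini (G : SimpleGraph V) (c : Sym2 V → Bool) : Prop :=
  ∀ c', (bads G c).card ≤ (bads G c').card

theorem exists_other {G : SimpleGraph V} (hdeg : ∀ v, 2 ≤ dg G v) (v : V) (e : Sym2 V) :
    ∃ e' ∈ inc G v, e' ≠ e := by
  have h : 1 < (inc G v).card := hdeg v
  obtain ⟨a, ha, b, hb, hab⟩ := Finset.one_lt_card.1 h
  by_cases h1 : a = e
  · exact ⟨b, hb, fun h2 => hab (h1.trans h2.symm)⟩
  · exact ⟨a, ha, h1⟩

theorem upd_of_ne (c : Sym2 V → Bool) (e e' : Sym2 V) (b : Bool) (h : e' ≠ e) :
    Function.update c e b e' = c e' := Function.update_of_ne h _ _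

theorem move {G : SimpleGraph V} (hdeg : ∀ v, 2 ≤ dg G v) {c : Sym2 V → Bool} (hc : Mini G c)
    {v w : V} {b : Bool} (hv : ∀ e ∈ inc G v, c e = b) (hvw : G.Adj v w) :
    Mini G (Function.update c s(v, w) (!b)) ∧
      ∀ e ∈ inc G w, Function.update c s(v, w) (!b) e = !b := by
  set c' := Function.update c s(v, w) (!b) with hc'
  have hne : v ≠ w := hvw.ne
  have hself : c' s(v, w) = !b := by rw [hc']; simp
  have hother : ∀ e, e ≠ s(v, w) → c' e = c e := fun e he => upd_of_ne _ _ _ _ he
  have hvbad : v ∈ bads G c := by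
    rw [bads, mem_filter]; exact ⟨mem_univ _, b, hv⟩
  have hvgood : v ∉ bads G c' := by
    rw [bads, mem_filter]
    rintro ⟨_, b', hb'⟩
    obtain ⟨e', he', hne'⟩ := exists_other hdeg v s(v, w)
    have h1 := hb' e' he'
    have h2 := hb' _ (mk_mem_inc hvw)
    rw [hother e' hne', hv e' he'] at h1
    rw [hself] at h2
    rw [← h1] at h2
    cases b <;> simp at h2
  have hsub : bads G c' ⊆ insert w ((bads G c).erase v) := by
    intro x hx
    rw [mem_insert, mem_erase]
    by_cases hxw : x = w
    · exact Or.inl hxw
    · right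
      have hxv : x ≠ v := fun h => hvgood (h ▸ hx)
      refine ⟨hxv, ?_⟩
      rw [bads, mem_filter] at hx ⊢
      obtain ⟨_, b', hb'⟩ := hx
      refine ⟨mem_univ _, b', fun e he => ?_⟩
      rw [← hb' e he, hother e]
      rintro rfl
      rw [mem_inc] at he
      rcases Sym2.mem_iff.1 he.2 with h | h
      · exact hxv h
      · exact hxw h
  have hcard : ((bads G c).erase v).card + 1 = (bads G c).card :=
    Finset.card_erase_add_one hvbad
  have hwbad : w ∈ bads G c' := by
    by_contra hw
    have hsub2 : bads G c' ⊆ (bads G c).erase v := by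
      intro x hx
      have := hsub hx
      rw [mem_insert] at this
      rcases this with h | h
      · exact absurd (h ▸ hx) hw
      · exact h
    have h1 := Finset.card_le_card hsub2
    have h2 := hc c'
    omega
  constructor
  · intro c''
    have h1 := Finset.card_le_card hsub
    have h2 := Finset.card_insert_le w ((bads G c).erase v)
    have h3 := hc c''
    omega
  · rw [bads, mem_filter] at hwbad
    obtain ⟨_, b', hb'⟩ := hwbad
    have h1 := hb' _ (mk_mem_inc' hvw)
    rw [hself] at h1
    intro e he
    rw [hb' e he, h1]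

/-- the colour of the `i`-th bad vertex -/
def col (b : Bool) (i : ℕ) : Bool := if i % 2 = 0 then b else !b

theorem col_succ (b : Bool) (i : ℕ) : col b (i + 1) = !(col b i) := by
  unfold col
  rcases Nat.mod_two_eq_zero_or_one i with h | h
  · have h1 : (i + 1) % 2 = 1 := by omega
    simp [h, h1]
  · have h1 : (i + 1) % 2 = 0 := by omega
    simp [h, h1]

/-- a path along which the bad vertex moves -/
structure St (G : SimpleGraph V) (b : Bool) (v0 : V) (k : ℕ) (p : ℕ → V) (c : Sym2 V → Bool) :
    Prop where
  z : p 0 = v0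
  inj : ∀ i ≤ k, ∀ j ≤ k, p i = p j → i = j
  adj : ∀ i < k, G.Adj (p i) (p (i + 1))
  mini : Mini G c
  bd : ∀ e ∈ inc G (p k), c e = col b k
  old : ∀ i < k, c s(p i, p (i + 1)) = !(col b i) ∧
    ∀ e ∈ inc G (p i), e ≠ s(p i, p (i + 1)) → c e = col b i
  all : ∀ i ≤ k, ∃ c' b', Mini G c' ∧ ∀ e ∈ inc G (p i), c' e = b'

/-- the closed situation -/
def Closed (G : SimpleGraph V) (v0 : V) : Prop :=
  dg G v0 = 2 ∧ ∃ (k : ℕ) (p : ℕ → V), k % 2 = 0 ∧ 2 ≤ k ∧ p 0 = v0 ∧
    (∀ i ≤ k, ∀ j ≤ k, p i = p j → i = j) ∧ (∀ i < k, G.Adj (p i) (p (i + 1))) ∧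
    G.Adj (p k) (p 0) ∧ ∀ i ≤ k, ∃ c' b', Mini G c' ∧ ∀ e ∈ inc G (p i), c' e = b'

theorem sym2_ne {x y z w : V} (h1 : x ≠ z ∨ y ≠ w) (h2 : x ≠ w ∨ y ≠ z) : s(x, y) ≠ s(z, w) := by
  intro h
  rw [Sym2.eq_iff] at h
  rcases h with ⟨h, h'⟩ | ⟨h, h'⟩
  · rcases h1 with h1 | h1
    · exact h1 h
    · exact h1 h'
  · rcases h2 with h2 | h2
    · exact h2 h
    · exact h2 h'

theorem St_step {G : SimpleGraph V} (hdeg : ∀ v, 2 ≤ dg G v) {b : Bool} {v0 : V} {k : ℕ}
    {p : ℕ → V} {c : Sym2 V → Bool} (h : St G b v0 k p c) :
    (∃ p' c', St G b v0 (k + 1) p' c') ∨ Closed G v0 := by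
  obtain ⟨e, he, hne⟩ := exists_other hdeg (p k) s(p (k - 1), p k)
  obtain ⟨y, hy, rfl⟩ := exists_of_mem_inc he
  have hyk : y ≠ p k := hy.ne'
  have hyk1 : 1 ≤ k → y ≠ p (k - 1) := by
    intro _ h1
    apply hne
    rw [h1, Sym2.eq_swap]
  obtain ⟨hm1, hm2⟩ := move hdeg h.mini h.bd hy
  by_cases hnew : ∀ i ≤ k, p i ≠ y
  · left
    refine ⟨Function.update p (k + 1) y, Function.update c s(p k, y) (!(col b k)), ?_⟩
    have hp : ∀ i ≤ k, Function.update p (k + 1) y i = p i := by
      intro i hi
      exact Function.update_of_ne (by omega) _ _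
    have hpk : Function.update p (k + 1) y (k + 1) = y := by simp
    constructor
    · rw [hp 0 (by omega)]; exact h.z
    · intro i hi j hj hij
      rcases Nat.lt_or_ge i (k + 1) with hi' | hi'
      · rcases Nat.lt_or_ge j (k + 1) with hj' | hj'
        · rw [hp i (by omega), hp j (by omega)] at hij
          exact h.inj i (by omega) j (by omega) hij
        · have : j = k + 1 := by omega
          subst this
          rw [hp i (by omega), hpk] at hij
          exact absurd hij (hnew i (by omega))
      · have : i = k + 1 := by omega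
        subst this
        rcases Nat.lt_or_ge j (k + 1) with hj' | hj'
        · rw [hp j (by omega), hpk] at hij
          exact absurd hij.symm (hnew j (by omega))
        · omega
    · intro i hi
      rcases Nat.lt_or_ge i k with hi' | hi'
      · rw [hp i (by omega), hp (i + 1) (by omega)]
        exact h.adj i hi'
      · have : i = k := by omega
        subst this
        rw [hp i le_rfl, hpk]
        exact hy
    · exact hm1
    · rw [hpk, col_succ]
      exact hm2
    · intro i hi
      rcases Nat.lt_or_ge i k with hi' | hi'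
      · rw [hp i (by omega), hp (i + 1) (by omega)]
        obtain ⟨o1, o2⟩ := h.old i hi'
        have n1 : s(p i, p (i + 1)) ≠ s(p k, y) := by
          apply sym2_ne
          · right; exact hnew (i + 1) (by omega)
          · left; exact hnew i (by omega)
        refine ⟨?_, ?_⟩
        · rw [upd_of_ne _ _ _ _ n1]; exact o1
        · intro e' he' hne'
          rw [upd_of_ne]
          · exact o2 e' he' hne'
          · rintro rfl
            rw [mem_inc] at he'
            rcases Sym2.mem_iff.1 he'.2 with h1 | h1
            · have := h.inj i (by omega) k le_rfl h1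
              omega
            · exact hnew i (by omega) h1
      · have : i = k := by omega
        subst this
        rw [hp i le_rfl, hpk]
        refine ⟨by simp, ?_⟩
        intro e' he' hne'
        rw [upd_of_ne _ _ _ _ hne']
        exact h.bd e' he'
    · intro i hi
      rcases Nat.lt_or_ge i (k + 1) with hi' | hi'
      · rw [hp i (by omega)]
        exact h.all i (by omega)
      · have : i = k + 1 := by omega
        subst this
        rw [hpk]
        exact ⟨_, _, hm1, hm2⟩
  · right
    push Not at hnew
    obtain ⟨j, hj, hpj⟩ := hnew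
    have hjk : j ≠ k := by rintro rfl; exact hyk hpj.symm
    have hjk1 : j + 1 ≠ k := by
      intro h1
      apply hyk1 (by omega)
      rw [← hpj]
      congr 1
      omega
    have hj2 : j + 1 < k := by omega
    subst hpj
    obtain ⟨o1, o2⟩ := h.old j (by omega)
    have hjk' : p (j + 1) ≠ p k := fun h1 => hjk1 (h.inj (j + 1) (by omega) k le_rfl h1)
    have hjj : p j ≠ p (j + 1) := fun h1 => by
      have := h.inj j (by omega) (j + 1) (by omega) h1
      omega
    have n1 : s(p j, p (j + 1)) ≠ s(p k, p j) := by
      apply sym2_ne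
      · right; exact hjj.symm
      · right; exact hjk'
    have hcol : col b j = col b k := by
      have h1 := hm2 s(p j, p (j + 1)) (mk_mem_inc (h.adj j (by omega)))
      rw [upd_of_ne _ _ _ _ n1, o1] at h1
      simpa using h1
    have hthird : ∀ e ∈ inc G (p j), e = s(p j, p (j + 1)) ∨ e = s(p k, p j) := by
      intro e he
      by_contra hcon
      push Not at hcon
      have h1 := hm2 e he
      rw [upd_of_ne _ _ _ _ hcon.2, o2 e he hcon.1, hcol] at h1
      simp at h1
    have hj0 : j = 0 := by
      by_contra hj0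
      obtain ⟨i, rfl⟩ : ∃ i, j = i + 1 := ⟨j - 1, by omega⟩
      have ha := h.adj i (by omega)
      rcases hthird _ (mk_mem_inc' ha) with h1 | h1
      · have : s(p i, p (i + 1)) ≠ s(p (i + 1), p (i + 1 + 1)) := by
          apply sym2_ne
          · left; exact ha.ne
          · left
            intro h2
            have := h.inj i (by omega) (i + 1 + 1) (by omega) h2
            omega
        exact this h1
      · have : s(p i, p (i + 1)) ≠ s(p k, p (i + 1)) := by
          apply sym2_ne
          · left
            intro h2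
            have := h.inj i (by omega) k le_rfl h2
            omega
          · left; exact ha.ne
        exact this h1
    subst hj0
    have hkmod : k % 2 = 0 := by
      unfold col at hcol
      by_contra hk
      simp [hk] at hcol
    refine ⟨?_, k, p, hkmod, by omega, h.z, h.inj, h.adj, hy, h.all⟩
    have hsub : inc G (p 0) ⊆ {s(p 0, p (0 + 1)), s(p k, p 0)} := by
      intro e he
      rw [mem_insert, mem_singleton]
      exact hthird e he
    have h1 := Finset.card_le_card hsub
    have h2 := Finset.card_insert_le s(p 0, p (0 + 1)) {s(p k, p 0)}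
    rw [Finset.card_singleton] at h2
    have h3 := hdeg (p 0)
    rw [← h.z]
    unfold dg at h3 ⊢
    omega

theorem closed_of_bad {G : SimpleGraph V} (hdeg : ∀ v, 2 ≤ dg G v) {c : Sym2 V → Bool}
    (hc : Mini G c) {v0 : V} {b : Bool} (hv : ∀ e ∈ inc G v0, c e = b) : Closed G v0 := by
  by_contra hcl
  have key : ∀ k, ∃ p c', St G b v0 k p c' := by
    intro k
    induction k with
    | zero =>
      refine ⟨fun _ => v0, c, rfl, ?_, ?_, hc, ?_, ?_, ?_⟩
      · intro i hi j hj _; omega
      · intro i hi; omega
      · simpa [col] using hv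
      · intro i hi; omega
      · intro i _; exact ⟨c, b, hc, hv⟩
    | succ k ih =>
      obtain ⟨p, c', h⟩ := ih
      rcases St_step hdeg h with h1 | h1
      · exact h1
      · exact absurd h1 hcl
  obtain ⟨p, c', h⟩ := key (Fintype.card V)
  have hinj : Set.InjOn p (range (Fintype.card V + 1) : Finset ℕ) := by
    intro i hi j hj hij
    rw [Finset.mem_coe, mem_range] at hi hj
    exact h.inj i (by omega) j (by omega) hij
  have h1 := Finset.card_le_univ ((range (Fintype.card V + 1)).image p)
  rw [Finset.card_image_of_injOn hinj, card_range] at h1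
  omega

theorem nbr_of_two {G : SimpleGraph V} {x p q y : V} (h2 : dg G x = 2) (hp : G.Adj x p)
    (hq : G.Adj x q) (hpq : p ≠ q) (hy : G.Adj x y) : y = p ∨ y = q := by
  have hsub : ({s(x, p), s(x, q)} : Finset (Sym2 V)) ⊆ inc G x := by
    intro e he
    rw [mem_insert, mem_singleton] at he
    rcases he with rfl | rfl
    · exact mk_mem_inc hp
    · exact mk_mem_inc hq
  have hne : s(x, p) ≠ s(x, q) := by
    apply sym2_ne
    · right; exact hpq
    · right; exact hp.ne'
  have hcard : ({s(x, p), s(x, q)} : Finset (Sym2 V)).card = 2 := Finset.card_pair hne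
  have heq := Finset.eq_of_subset_of_card_le hsub (by rw [hcard]; exact h2.le)
  have hmem := mk_mem_inc hy
  rw [← heq, mem_insert, mem_singleton] at hmem
  rcases hmem with h | h
  · left
    rw [Sym2.eq_iff] at h
    rcases h with ⟨_, h⟩ | ⟨h, _⟩
    · exact h
    · exact absurd h hp.ne
  · right
    rw [Sym2.eq_iff] at h
    rcases h with ⟨_, h⟩ | ⟨h, _⟩
    · exact h
    · exact absurd h hq.ne

/-- Either the edges split into two edge covering sets or there is an odd set of vertices of
degree two closed under adjacency. -/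
theorem split {G : SimpleGraph V} (hdeg : ∀ v, 2 ≤ dg G v) :
    (∃ R ⊆ E G, Cov R ∧ Cov (E G \ R)) ∨
      ∃ D : Finset V, Odd D.card ∧ (∀ x ∈ D, dg G x = 2) ∧ ∀ x ∈ D, ∀ y, G.Adj x y → y ∈ D := by
  obtain ⟨c, hc⟩ : ∃ c, Mini G c := by
    obtain ⟨c, hc⟩ := Finite.exists_min (fun c : Sym2 V → Bool => (bads G c).card)
    exact ⟨c, hc⟩
  by_cases hb : ∃ v, bad G c v
  · right
    obtain ⟨v0, b, hv⟩ := hb
    obtain ⟨_, k, p, hk, hk2, hp0, hinj, hadj, hlast, hall⟩ := closed_of_bad hdeg hc hv
    refine ⟨(range (k + 1)).image p, ?_, ?_, ?_⟩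
    · rw [Finset.card_image_of_injOn, card_range]
      · exact Nat.odd_iff.2 (by omega)
      · intro i hi j hj hij
        rw [Finset.mem_coe, mem_range] at hi hj
        exact hinj i (by omega) j (by omega) hij
    · intro x hx
      rw [mem_image] at hx
      obtain ⟨i, hi, rfl⟩ := hx
      rw [mem_range] at hi
      obtain ⟨c', b', h1, h2⟩ := hall i (by omega)
      exact (closed_of_bad hdeg h1 h2).1
    · intro x hx y hxy
      rw [mem_image] at hx
      obtain ⟨i, hi, rfl⟩ := hx
      rw [mem_range] at hi
      have h2 : dg G (p i) = 2 := by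
        obtain ⟨c', b', h1, h2⟩ := hall i (by omega)
        exact (closed_of_bad hdeg h1 h2).1
      have hmem : ∀ j, j ≤ k → p j ∈ (range (k + 1)).image p := fun j hj =>
        mem_image_of_mem _ (mem_range.2 (by omega))
      rcases Nat.eq_zero_or_pos i with rfl | hi0
      · have hne : p 1 ≠ p k := fun h => by
          have := hinj 1 (by omega) k le_rfl h
          omega
        rcases nbr_of_two h2 (hadj 0 (by omega)) hlast.symm hne hxy with rfl | rfl
        · exact hmem 1 (by omega)
        · exact hmem k le_rfl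
      · obtain ⟨j, rfl⟩ : ∃ j, i = j + 1 := ⟨i - 1, by omega⟩
        have hprev := (hadj j (by omega)).symm
        rcases Nat.lt_or_ge (j + 1) k with hjk | hjk
        · have hne : p j ≠ p (j + 1 + 1) := fun h => by
            have := hinj j (by omega) (j + 1 + 1) (by omega) h
            omega
          rcases nbr_of_two h2 hprev (hadj (j + 1) hjk) hne hxy with rfl | rfl
          · exact hmem j (by omega)
          · exact hmem (j + 1 + 1) (by omega)
        · have hjk' : j + 1 = k := by omega
          subst hjk'
          have hne : p j ≠ p 0 := fun h => by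
            have := hinj j (by omega) 0 (by omega) h
            omega
          rcases nbr_of_two h2 hprev hlast hne hxy with rfl | rfl
          · exact hmem j (by omega)
          · exact hmem 0 (by omega)
  · left
    push Not at hb
    refine ⟨(E G).filter (fun e => c e = true), filter_subset _ _, ?_, ?_⟩
    · intro v
      by_contra hcon
      push Not at hcon
      apply hb v
      refine ⟨false, fun e he => ?_⟩
      rw [mem_inc] at he
      by_contra h1
      have h2 : c e = true := by simpa using h1
      exact hcon e (by rw [mem_filter, mem_E]; exact ⟨he.1, h2⟩) he.2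
    · intro v
      by_contra hcon
      push Not at hcon
      apply hb v
      refine ⟨true, fun e he => ?_⟩
      rw [mem_inc] at he
      by_contra h1
      exact hcon e (by
        rw [mem_sdiff, mem_filter, mem_E]
        exact ⟨he.1, fun h3 => h1 h3.2⟩) he.2

end Pool.Agent.X291.EC
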